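import Pool.Agent.Y714.KI.Stm
import Pool.Agent.Y714.ML.Ht
import Pool.Agent.Y714.KF.Ct

/-!
# Project KI, SST: semistable models
-/

set_option autoImplicit false
set_option linter.unusedSectionVars false

namespace Pool.Agent.Y65.KI

open Pool.Agent.Y714.KI
open Pool.Agent.Y714.KF (FI sp nm sp_ne sp_mul sp_le nm_pos nm_anti nm_sp exists_ideal
  inv_mul_le_one fst_mem_ct snd_mem_ct)
open Pool.Agent.Y714.KW (Mon)
open Pool.Agent.Y714.ML (Cop card_Cop card_filter_Cop permMon exists_perm_of_dense)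
open NumberField FractionalIdeal Module Finset
open scoped nonZeroDivisors

section algebra

variable {F : Type} [Field F] {ι : Type} [Fintype ι]

theorem bX_gX (a b c d : F) (X : ι → F × F) (i j : ι) :
    bX (gX a b c d X) i j = (a * d - b * c) * bX X i j := by
  simp only [bX, gX]
  ring

theorem gX_gX (a b c d a' b' c' d' : F) (X : ι → F × F) :
    gX a' b' c' d' (gX a b c d X) =
      gX (a' * a + b' * c) (a' * b + b' * d) (c' * a + d' * c) (c' * b + d' * d) X := by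
  funext i
  simp only [gX]
  refine Prod.ext ?_ ?_
  · simp only
    ring
  · simp only
    ring

theorem sum_mon {d : ι → ℕ} (m : Mon d) : ∑ q : ι × ι, m.1 q + ∑ q : ι × ι, m.1 q = ∑ i, d i := by
  have h1 : ∑ i, d i = ∑ i, ∑ j, (m.1 (i, j) + m.1 (j, i)) :=
    sum_congr rfl fun i _ => (m.2 i).symm
  rw [h1]
  simp only [sum_add_distrib]
  rw [Fintype.sum_prod_type]
  congr 1
  rw [sum_comm]

theorem sum_mon' {e : ι → ℕ} (m : Mon fun i => 2 * e i) : ∑ q : ι × ι, m.1 q = ∑ i, e i := by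
  have h := sum_mon m
  rw [← mul_sum] at h
  omega

theorem mX_gX {e : ι → ℕ} (a b c d : F) (X : ι → F × F) (m : Mon fun i => 2 * e i) :
    mX (gX a b c d X) m = (a * d - b * c) ^ (∑ i, e i) * mX X m := by
  unfold mX
  rw [← sum_mon' m, ← prod_pow_eq_pow_sum, ← prod_mul_distrib]
  refine prod_congr rfl fun q _ => ?_
  rw [bX_gX, mul_pow]

theorem prod_kappa {M : Type} [CommMonoid M] {d : ι → ℕ} (m : Mon d) (κ : ι → M) :
    ∏ q : ι × ι, (κ q.1 * κ q.2) ^ m.1 q = ∏ i, κ i ^ d i := by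
  have h1 : ∀ i, κ i ^ d i = (∏ j, κ i ^ m.1 (i, j)) * ∏ j, κ i ^ m.1 (j, i) := by
    intro i
    rw [← m.2 i, sum_add_distrib, pow_add, prod_pow_eq_pow_sum, prod_pow_eq_pow_sum]
  rw [prod_congr rfl fun i _ => h1 i, prod_mul_distrib]
  simp only [mul_pow, prod_mul_distrib]
  rw [Fintype.prod_prod_type, Fintype.prod_prod_type]
  congr 1
  rw [prod_comm]

theorem prod_perm {M : Type} [CommMonoid M] {I : Type} [Fintype I] [DecidableEq I] (e : I → ℕ)
    (σ : Equiv.Perm (Cop e)) (w : I → I → M) :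
    ∏ q : I × I, w q.1 q.2 ^ (permMon e σ).1 q = ∏ j : Cop e, w j.1 (σ j).1 := by
  unfold permMon
  simp only
  have h1 : ∏ j : Cop e, w j.1 (σ j).1 =
      ∏ j : Cop e, (fun q : I × I => w q.1 q.2) ((fun j : Cop e => (j.1, (σ j).1)) j) := rfl
  rw [h1, ← Finset.prod_fiberwise_of_maps_to' (s := (univ : Finset (Cop e))) (t := univ)
    (g := fun j : Cop e => (j.1, (σ j).1)) (fun j _ => mem_univ _)
    (fun q : I × I => w q.1 q.2)]
  refine prod_congr rfl fun q _ => ?_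
  rw [prod_const]
  congr 1
  congr 1
  ext j
  simp [Prod.ext_iff]

theorem prod_cop {M : Type} [CommMonoid M] {I : Type} [Fintype I] (e : I → ℕ)
    (κ : I → M) : ∏ j : Cop e, κ j.1 = ∏ i, κ i ^ e i := by
  rw [Fintype.prod_sigma]
  refine prod_congr rfl fun i _ => ?_
  simp

end algebra

section ideals

variable {F : Type} [Field F] [NumberField F] {ι : Type} [Fintype ι]

theorem sp_pow (x : F) (n : ℕ) : sp (x ^ n) = sp x ^ n := by
  rw [sp, sp, spanSingleton_pow]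

theorem sp_prod {α : Type} (s : Finset α) (f : α → F) : sp (∏ i ∈ s, f i) = ∏ i ∈ s, sp (f i) := by
  classical
  induction s using Finset.induction_on with
  | empty => simp [sp]
  | insert a s ha ih => rw [prod_insert ha, prod_insert ha, sp_mul, ih]

theorem prod_le {α : Type} (s : Finset α) (f g : α → FI F) (h : ∀ i ∈ s, f i ≤ g i) :
    ∏ i ∈ s, f i ≤ ∏ i ∈ s, g i := by
  classical
  induction s using Finset.induction_on with
  | empty => simp
  | insert a s ha ih =>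
    rw [prod_insert ha, prod_insert ha]
    exact mul_le_mul' (h a (mem_insert_self a s)) (ih fun i hi => h i (mem_insert_of_mem hi))

/-- the ideal of the monomials -/
noncomputable def MM (e : ι → ℕ) [Fintype (Mon fun i => 2 * e i)] (X : ι → F × F) : FI F :=
  ∑ m : Mon (fun i => 2 * e i), sp (mX X m)

/-- the product of the contents -/
noncomputable def cc (e : ι → ℕ) (X : ι → F × F) : FI F := ∏ i, cX X i ^ (2 * e i)

theorem MM_gX (e : ι → ℕ) [Fintype (Mon fun i => 2 * e i)] (a b c d : F) (X : ι → F × F) :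
    MM e (gX a b c d X) = sp (a * d - b * c) ^ (∑ i, e i) * MM e X := by
  unfold MM
  rw [mul_sum]
  refine sum_congr rfl fun m _ => ?_
  rw [mX_gX, sp_mul, sp_pow]

theorem sp_bX_le (Y : ι → F × F) (i j : ι) : sp (bX Y i j) ≤ cX Y i * cX Y j := by
  rw [sp_le]
  unfold bX
  exact ((cX Y i * cX Y j : FI F) : Submodule (𝓞 F) F).sub_mem
    (mul_mem_mul (fst_mem_ct (Y i)) (snd_mem_ct (Y j)))
    (mul_mem_mul (snd_mem_ct (Y i)) (fst_mem_ct (Y j)))

theorem sp_mX_le {e : ι → ℕ} (Y : ι → F × F) (m : Mon fun i => 2 * e i) :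
    sp (mX Y m) ≤ cc e Y := by
  unfold cc mX
  rw [← prod_kappa m (fun i => cX Y i), sp_prod]
  refine prod_le _ _ _ fun q _ => ?_
  rw [sp_pow]
  exact pow_le_pow_left' (sp_bX_le Y q.1 q.2) _

theorem MM_le (e : ι → ℕ) [Fintype (Mon fun i => 2 * e i)] (Y : ι → F × F) :
    MM e Y ≤ cc e Y := by
  unfold MM
  refine Finset.sum_induction _ (fun I => I ≤ cc e Y) (fun a b ha hb => ?_) (zero_le _)
    (fun m _ => sp_mX_le Y m)
  rw [← sup_eq_add]
  exact sup_le ha hb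

theorem le_MM {e : ι → ℕ} [Fintype (Mon fun i => 2 * e i)] (Y : ι → F × F)
    (m : Mon fun i => 2 * e i) : sp (mX Y m) ≤ MM e Y := by
  classical
  unfold MM
  rw [← Finset.add_sum_erase _ _ (mem_univ m), ← sup_eq_add]
  exact le_sup_left

/-- nondegenerate tuples -/
def Nd (X : ι → F × F) : Prop := ∀ i j, i ≠ j → bX X i j ≠ 0

theorem Nd.gX {X : ι → F × F} (h : Nd X) {a b c d : F} (hd : a * d - b * c ≠ 0) :
    Nd (gX a b c d X) := by
  intro i j hij
  rw [bX_gX]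
  exact mul_ne_zero hd (h i j hij)

theorem exists_ne {e : ι → ℕ} (he : ∀ i, 0 < e i) (h2 : ∀ i, 2 * e i ≤ ∑ j, e j) (i : ι) :
    ∃ j, i ≠ j := by
  classical
  by_contra hcon
  push Not at hcon
  have h1 : ∑ j, e j = e i := by
    rw [Finset.sum_eq_single i]
    · intro j _ hj
      exact absurd (hcon j).symm hj
    · intro h
      exact absurd (mem_univ i) h
  have := he i
  have := h2 i
  omega

theorem cX_ne {X : ι → F × F} (h : Nd X) {i j : ι} (hij : i ≠ j) : cX X i ≠ 0 := by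
  intro h0
  have h1 : (X i).1 ∈ cX X i := fst_mem_ct (X i)
  have h2 : (X i).2 ∈ cX X i := snd_mem_ct (X i)
  rw [h0, FractionalIdeal.mem_zero_iff] at h1 h2
  apply h i j hij
  unfold bX
  rw [h1, h2]
  ring

theorem pair_ne {X : ι → F × F} (h : Nd X) {i j : ι} (hij : i ≠ j) :
    (X i).1 ≠ 0 ∨ (X i).2 ≠ 0 := by
  by_contra hcon
  push Not at hcon
  apply h i j hij
  unfold bX
  rw [hcon.1, hcon.2]
  ring

theorem cc_ne {e : ι → ℕ} (he : ∀ i, 0 < e i) (h2 : ∀ i, 2 * e i ≤ ∑ j, e j)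
    {X : ι → F × F} (h : Nd X) : cc e X ≠ 0 := by
  unfold cc
  rw [Finset.prod_ne_zero_iff]
  intro i _
  obtain ⟨j, hij⟩ := exists_ne he h2 i
  exact pow_ne_zero _ (cX_ne h hij)

theorem mX_perm [DecidableEq ι] (e : ι → ℕ) (σ : Equiv.Perm (Cop e)) (X : ι → F × F) :
    mX X (⟨(permMon e σ).1, (permMon e σ).2⟩ : Mon fun i => 2 * e i) =
      ∏ j : Cop e, bX X j.1 (σ j).1 :=
  prod_perm e σ (fun i j => bX X i j)

theorem MM_ne {e : ι → ℕ} (h2 : ∀ i, 2 * e i ≤ ∑ j, e j)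
    [Fintype (Mon fun i => 2 * e i)] {X : ι → F × F} (h : Nd X) : MM e X ≠ 0 := by
  classical
  obtain ⟨σ, hσ⟩ := exists_perm_of_dense (fun j k : Cop e => ¬ k.1 = j.1)
    (fun j k h1 h2 => h1 h2.symm)
    (fun j => by
      simp only [not_not]
      rw [card_filter_Cop e (fun i => i = j.1), card_Cop]
      have h5 : univ.filter (fun i => i = j.1) = {j.1} := by
        ext i
        simp
      rw [h5, sum_singleton]
      exact h2 j.1)
  intro h0
  have h3 := le_MM X (⟨(permMon e σ).1, (permMon e σ).2⟩ : Mon fun i => 2 * e i)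
  rw [h0, mX_perm, sp_le, FractionalIdeal.mem_zero_iff, Finset.prod_eq_zero_iff] at h3
  obtain ⟨j, _, hj⟩ := h3
  exact h _ _ (fun h4 => hσ j h4.symm) hj

/-! ### norms -/

/-- the norm as a real number -/
noncomputable def nr (I : FI F) : ℝ := ((nm I : ℚ) : ℝ)

theorem nr_mul (I J : FI F) : nr (I * J) = nr I * nr J := by
  unfold nr nm
  rw [map_mul]
  push_cast
  rfl

theorem nr_pow (I : FI F) (n : ℕ) : nr (I ^ n) = nr I ^ n := by
  unfold nr nm
  rw [map_pow]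
  push_cast
  rfl

theorem nr_prod {α : Type} (s : Finset α) (f : α → FI F) :
    nr (∏ i ∈ s, f i) = ∏ i ∈ s, nr (f i) := by
  unfold nr nm
  rw [map_prod]
  push_cast
  rfl

theorem nr_pos {I : FI F} (h : I ≠ 0) : 0 < nr I := by
  unfold nr
  exact_mod_cast nm_pos h

theorem nr_anti {I J : FI F} (hI : I ≠ 0) (h : I ≤ J) : nr J ≤ nr I := by
  unfold nr
  exact_mod_cast nm_anti hI h

theorem nr_sp (x : F) : nr (sp x) = |((Algebra.norm ℚ x : ℚ) : ℝ)| := by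
  unfold nr
  rw [nm_sp]
  push_cast
  rfl

theorem nr_coe (v : Ideal (𝓞 F)) : nr (v : FI F) = ((Ideal.absNorm v : ℕ) : ℝ) := by
  unfold nr nm
  rw [coeIdeal_absNorm]
  push_cast
  rfl

theorem nr_cc (e : ι → ℕ) (X : ι → F × F) :
    nr (cc e X) = ∏ i, ((nm (cX X i) : ℚ) : ℝ) ^ (2 * e i) := by
  unfold cc
  rw [nr_prod]
  exact prod_congr rfl fun i _ => nr_pow _ _

end ideals

section inf

variable {F : Type} [Field F] [NumberField F] {ι : Type} [Fintype ι]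

/-- the (twisted) minimality of the contents -/
def Mini (e : ι → ℕ) (Y : ι → F × F) : Prop := ∀ a b c d : F, a * d - b * c ≠ 0 →
  nr (cc e (gX a b c d Y)) <
    2 * |((Algebra.norm ℚ (a * d - b * c) : ℚ) : ℝ)| ^ (∑ i, e i) * nr (cc e Y)

theorem exists_mini {e : ι → ℕ} (he : ∀ i, 0 < e i) (h2 : ∀ i, 2 * e i ≤ ∑ j, e j)
    [Fintype (Mon fun i => 2 * e i)] {X : ι → F × F} (h : Nd X) :
    ∃ a b c d : F, a * d - b * c ≠ 0 ∧ Mini e (gX a b c d X) := by
  obtain ⟨E, hE⟩ : ∃ E, E = ∑ i, e i := ⟨_, rfl⟩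
  have hMpos : 0 < nr (MM e X) := nr_pos (MM_ne h2 h)
  have hN : ∀ x : F, x ≠ 0 → 0 < |((Algebra.norm ℚ x : ℚ) : ℝ)| := by
    intro x hx
    rw [← nr_sp]
    exact nr_pos (sp_ne hx)
  obtain ⟨S, hS⟩ : ∃ S : Set ℝ, S = {r : ℝ | ∃ a b c d : F, a * d - b * c ≠ 0 ∧
    r = |((Algebra.norm ℚ (a * d - b * c) : ℚ) : ℝ)| ^ E / nr (cc e (gX a b c d X))} := ⟨_, rfl⟩
  have hne : S.Nonempty := by
    rw [hS]
    exact ⟨_, 1, 0, 0, 1, by norm_num, rfl⟩
  have hlow : ∀ r ∈ S, 1 / nr (MM e X) ≤ r := by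
    intro r hr
    rw [hS] at hr
    obtain ⟨a, b, c, d, hd, rfl⟩ := hr
    have hc := nr_pos (cc_ne he h2 (h.gX hd))
    have h3 := nr_anti (MM_ne h2 (h.gX hd)) (MM_le e (gX a b c d X))
    rw [MM_gX, nr_mul, nr_pow, nr_sp, ← hE] at h3
    rw [div_le_div_iff₀ hMpos hc, one_mul]
    exact h3
  have hbdd : BddBelow S := ⟨_, hlow⟩
  have hs : 0 < sInf S := lt_of_lt_of_le (by positivity) (le_csInf hne hlow)
  obtain ⟨r, hr, hr2⟩ := exists_lt_of_csInf_lt hne (show sInf S < 2 * sInf S by linarith)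
  have hall : ∀ r' ∈ S, r < 2 * r' := by
    intro r' hr'
    have := csInf_le hbdd hr'
    linarith
  rw [hS] at hr
  obtain ⟨a, b, c, d, hd, rfl⟩ := hr
  refine ⟨a, b, c, d, hd, ?_⟩
  intro a' b' c' d' hd'
  have hdet : (a' * a + b' * c) * (c' * b + d' * d) - (a' * b + b' * d) * (c' * a + d' * c) =
      (a' * d' - b' * c') * (a * d - b * c) := by ring
  have h4 := hall (|((Algebra.norm ℚ ((a' * a + b' * c) * (c' * b + d' * d) -
      (a' * b + b' * d) * (c' * a + d' * c)) : ℚ) : ℝ)| ^ E /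
      nr (cc e (gX (a' * a + b' * c) (a' * b + b' * d) (c' * a + d' * c) (c' * b + d' * d) X)))
    (by
      rw [hS]
      exact ⟨_, _, _, _, by rw [hdet]; exact mul_ne_zero hd' hd, rfl⟩)
  rw [← gX_gX, hdet, map_mul] at h4
  push_cast at h4
  rw [abs_mul, mul_pow, ← mul_div_assoc, div_lt_div_iff₀ (nr_pos (cc_ne he h2 (h.gX hd)))
    (nr_pos (cc_ne he h2 ((h.gX hd).gX hd')))] at h4
  have hg := pow_pos (hN _ hd) E
  rw [← hE]
  push_cast
  refine lt_of_mul_lt_mul_left ?_ hg.le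
  calc _ < _ := h4
    _ = _ := by ring

end inf

section claim

variable {F : Type} [Field F] [NumberField F] {ι : Type} [Fintype ι]

open Classical in
theorem claim {e : ι → ℕ} (he : ∀ i, 0 < e i) (h2 : ∀ i, 2 * e i ≤ ∑ j, e j)
    {CF : ℝ} (hCF : 0 < CF)
    (hST : ∀ (v : Ideal (𝓞 F)), v.IsPrime → v ≠ ⊥ → ∀ (D : ℕ) (X : ι → F × F)
      (i₀ : ι), (X i₀).1 ≠ 0 ∨ (X i₀).2 ≠ 0 →
      ∃ a b c d : F, a * d - b * c ≠ 0 ∧
        (|Algebra.norm ℚ (a * d - b * c)| : ℝ) ≤ CF * ((Ideal.absNorm v : ℕ) : ℝ) ^ D ∧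
        (∀ j, cX (gX a b c d X) j ≤ cX X j) ∧
        ∀ j, bX X i₀ j ∈ cX X i₀ * cX X j * ((v ^ D : Ideal (𝓞 F)) : FI F) →
          cX (gX a b c d X) j ≤ ((v ^ D : Ideal (𝓞 F)) : FI F) * cX X j)
    {Y : ι → F × F} (hY : Nd Y) (hm : Mini e Y) {v : Ideal (𝓞 F)} (hv : v.IsPrime) (hv0 : v ≠ ⊥)
    {D : ℕ} (hD : 2 * CF ^ (∑ i, e i) < ((Ideal.absNorm v : ℕ) : ℝ) ^ D) (i₀ : ι) :
    2 * ∑ j ∈ univ.filter (fun j => bX Y i₀ j ∈ cX Y i₀ * cX Y j *
      ((v ^ D : Ideal (𝓞 F)) : FI F)), e j ≤ ∑ i, e i := by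
  by_contra hcon
  push Not at hcon
  obtain ⟨j₀, hj₀⟩ := exists_ne he h2 i₀
  obtain ⟨a, b, c, d, hd, hnd, hle, hle2⟩ := hST v hv hv0 D Y i₀ (pair_ne hY hj₀)
  obtain ⟨Z, hZ⟩ : ∃ Z : Finset ι, Z = univ.filter (fun j => bX Y i₀ j ∈ cX Y i₀ * cX Y j *
      ((v ^ D : Ideal (𝓞 F)) : FI F)) := ⟨_, rfl⟩
  rw [← hZ] at hcon
  have hvn : (1 : ℝ) ≤ ((Ideal.absNorm v : ℕ) : ℝ) := by
    have : Ideal.absNorm v ≠ 0 := by
      intro h
      exact hv0 (Ideal.absNorm_eq_zero_iff.1 h)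
    exact_mod_cast Nat.one_le_iff_ne_zero.2 this
  have key : cc e (gX a b c d Y) ≤
      ((v ^ D : Ideal (𝓞 F)) : FI F) ^ (∑ j ∈ Z, 2 * e j) * cc e Y := by
    have h3 : ((v ^ D : Ideal (𝓞 F)) : FI F) ^ (∑ j ∈ Z, 2 * e j) * cc e Y =
        ∏ j, ((if j ∈ Z then ((v ^ D : Ideal (𝓞 F)) : FI F) else 1) * cX Y j) ^ (2 * e j) := by
      unfold cc
      simp only [mul_pow]
      rw [prod_mul_distrib]
      congr 1
      rw [← prod_pow_eq_pow_sum, ← Finset.prod_filter_mul_prod_filter_not univ (fun j => j ∈ Z)]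
      have h4 : univ.filter (fun j => j ∈ Z) = Z := by
        ext j
        simp
      rw [h4]
      have h5 : ∏ j ∈ univ.filter (fun j => ¬ j ∈ Z),
          (if j ∈ Z then ((v ^ D : Ideal (𝓞 F)) : FI F) else 1) ^ (2 * e j) = 1 := by
        refine prod_eq_one fun j hj => ?_
        rw [mem_filter] at hj
        rw [if_neg hj.2, one_pow]
      rw [h5, mul_one]
      refine prod_congr rfl fun j hj => ?_
      rw [if_pos hj]
    rw [h3]
    unfold cc
    refine prod_le _ _ _ fun j _ => ?_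
    refine pow_le_pow_left' ?_ _
    by_cases hj : j ∈ Z
    · rw [if_pos hj]
      apply hle2
      rw [hZ, mem_filter] at hj
      exact hj.2
    · rw [if_neg hj, one_mul]
      exact hle j
  have h6 := nr_anti (cc_ne he h2 (hY.gX hd)) key
  rw [nr_mul, nr_pow, nr_coe, map_pow] at h6
  push_cast at h6
  have h7 := hm a b c d hd
  have hcY := nr_pos (cc_ne he h2 hY)
  obtain ⟨P, hP⟩ : ∃ P : ℝ, P = ((Ideal.absNorm v : ℕ) : ℝ) ^ D := ⟨_, rfl⟩
  have hP1 : 1 ≤ P := by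
    rw [hP]
    exact one_le_pow₀ hvn
  rw [← hP] at h6 hD hnd
  obtain ⟨E, hE⟩ : ∃ E, E = ∑ i, e i := ⟨_, rfl⟩
  rw [← hE] at h7 hD hcon
  have h8 : |((Algebra.norm ℚ (a * d - b * c) : ℚ) : ℝ)| ^ E ≤ (CF * P) ^ E :=
    pow_le_pow_left₀ (abs_nonneg _) hnd E
  have h9 : P ^ (E + 1) ≤ P ^ (∑ j ∈ Z, 2 * e j) := by
    apply pow_le_pow_right₀ hP1
    rw [← mul_sum]
    omega
  have h10 : P ^ E * P * nr (cc e Y) < 2 * (CF * P) ^ E * nr (cc e Y) := by
    calc P ^ E * P * nr (cc e Y) = P ^ (E + 1) * nr (cc e Y) := by rw [pow_succ]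
      _ ≤ P ^ (∑ j ∈ Z, 2 * e j) * nr (cc e Y) := by gcongr
      _ ≤ nr (cc e (gX a b c d Y)) := h6
      _ < _ := h7
      _ ≤ _ := by gcongr
  have h11 : P ^ E * P < 2 * (CF * P) ^ E := lt_of_mul_lt_mul_right h10 hcY.le
  have hPE : 0 < P ^ E := by positivity
  have h12 : P ^ E * P < P ^ E * (2 * CF ^ E) := by
    calc P ^ E * P < 2 * (CF * P) ^ E := h11
      _ = P ^ E * (2 * CF ^ E) := by rw [mul_pow]; ring
  have h13 := lt_of_mul_lt_mul_left h12 hPE.le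
  linarith

end claim

section mult

variable {F : Type} [Field F] [NumberField F]

theorem not_prod_le {J : Type} [Fintype J] {v : Ideal (𝓞 F)} (hv : v.IsPrime) (hv0 : v ≠ ⊥)
    (D : ℕ) (n : J → Ideal (𝓞 F)) (h : ∀ j, ¬ n j ≤ v ^ (D + 1)) :
    ¬ (∏ j, n j) ≤ v ^ (D * Fintype.card J + 1) := by
  have hp : Prime v := Ideal.prime_of_isPrime hv0 hv
  intro hle
  rw [← Ideal.dvd_iff_le] at hle
  have h1 : ∀ j, emultiplicity v (n j) ≤ (D : ℕ∞) := by
    intro j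
    have h2 := h j
    rw [← Ideal.dvd_iff_le, ← emultiplicity_lt_iff_not_dvd] at h2
    push_cast at h2
    exact Order.le_of_lt_add_one h2
  have h3 : emultiplicity v (∏ j, n j) ≤ ((D * Fintype.card J : ℕ) : ℕ∞) := by
    rw [Finset.emultiplicity_prod hp]
    calc ∑ j, emultiplicity v (n j) ≤ ∑ _j : J, (D : ℕ∞) := sum_le_sum fun j _ => h1 j
      _ = ((D * Fintype.card J : ℕ) : ℕ∞) := by
        rw [sum_const, Finset.card_univ, nsmul_eq_mul]
        push_cast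
        rw [mul_comm]
  have h4 := le_emultiplicity_of_pow_dvd hle
  have h5 := h4.trans h3
  have h6 : D * Fintype.card J + 1 ≤ D * Fintype.card J := by exact_mod_cast h5
  omega

end mult

section main

variable {F : Type} [Field F] [NumberField F] {ι : Type} [Fintype ι]

theorem bX_swap (Y : ι → F × F) (i j : ι) : bX Y j i = - bX Y i j := by
  unfold bX
  ring

open Classical in
theorem not_MM_le {e : ι → ℕ} (he : ∀ i, 0 < e i) (h2 : ∀ i, 2 * e i ≤ ∑ j, e j)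
    [Fintype (Mon fun i => 2 * e i)] {Y : ι → F × F} (hY : Nd Y) {v : Ideal (𝓞 F)}
    (hv : v.IsPrime) (hv0 : v ≠ ⊥) (D : ℕ)
    (hcl : ∀ i₀, 2 * ∑ j ∈ univ.filter (fun j => bX Y i₀ j ∈ cX Y i₀ * cX Y j *
      ((v ^ (D + 1) : Ideal (𝓞 F)) : FI F)), e j ≤ ∑ i, e i) :
    ¬ MM e Y ≤ ((v ^ (D * (∑ i, e i) + 1) : Ideal (𝓞 F)) : FI F) * cc e Y := by
  obtain ⟨σ, hσ⟩ := exists_perm_of_dense (fun j k : Cop e => ¬ (bX Y j.1 k.1 ∈ cX Y j.1 * cX Y k.1 *
      ((v ^ (D + 1) : Ideal (𝓞 F)) : FI F)))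
    (fun j k h1 h3 => h1 (by
      rw [bX_swap Y k.1 j.1, mul_comm (cX Y j.1)]
      exact ((cX Y k.1 * cX Y j.1 * ((v ^ (D + 1) : Ideal (𝓞 F)) : FI F) : FI F) :
        Submodule (𝓞 F) F).neg_mem h3))
    (fun j => by
      simp only [not_not]
      rw [card_filter_Cop e (fun i => bX Y j.1 i ∈ cX Y j.1 * cX Y i *
        ((v ^ (D + 1) : Ideal (𝓞 F)) : FI F)), card_Cop]
      exact hcl j.1)
  intro hle
  have hcne : ∀ i, cX Y i ≠ 0 := by
    intro i
    obtain ⟨j, hij⟩ := exists_ne he h2 i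
    exact cX_ne hY hij
  have hn : ∀ j : Cop e, ∃ n : Ideal (𝓞 F),
      (n : FI F) = (cX Y j.1 * cX Y (σ j).1)⁻¹ * sp (bX Y j.1 (σ j).1) := fun j =>
    exists_ideal (inv_mul_le_one (mul_ne_zero (hcne _) (hcne _)) (sp_bX_le Y j.1 (σ j).1))
  choose n hn using hn
  have hn2 : ∀ j, (n j : FI F) * (cX Y j.1 * cX Y (σ j).1) = sp (bX Y j.1 (σ j).1) := by
    intro j
    rw [hn j, mul_comm, ← mul_assoc, mul_inv_cancel₀ (mul_ne_zero (hcne _) (hcne _)), one_mul]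
  have hnot : ∀ j, ¬ n j ≤ v ^ (D + 1) := by
    intro j hj
    apply hσ j
    rw [← sp_le, ← hn2 j, mul_comm]
    exact mul_le_mul' le_rfl ((coeIdeal_le_coeIdeal F).2 hj)
  have hcc : cc e Y = ∏ j : Cop e, (cX Y j.1 * cX Y (σ j).1) := by
    rw [prod_mul_distrib, Equiv.prod_comp σ (fun j : Cop e => cX Y j.1), prod_cop, ←
      prod_mul_distrib]
    unfold cc
    exact prod_congr rfl fun i _ => by rw [two_mul, pow_add]
  apply not_prod_le hv hv0 D n hnot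
  rw [card_Cop, ← coeIdeal_le_coeIdeal F]
  have h3 := (le_MM Y (⟨(permMon e σ).1, (permMon e σ).2⟩ : Mon fun i => 2 * e i)).trans hle
  rw [mX_perm, sp_prod, prod_congr rfl fun j _ => (hn2 j).symm, prod_mul_distrib, ← hcc] at h3
  have h4 : ((∏ j, n j : Ideal (𝓞 F)) : FI F) = ∏ j, (n j : FI F) := by
    rw [← coeIdealHom_apply]
    rw [map_prod]
    rfl
  rw [h4]
  have h5 := cc_ne he h2 hY
  have h6 := mul_le_mul' h3 (le_refl (cc e Y)⁻¹)
  rw [mul_assoc, mul_assoc, mul_inv_cancel₀ h5, mul_one, mul_one] at h6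
  exact h6

end main

theorem sst (h1 : S_STEP) (h2 : S_DIVB) : S_SST := by
  classical
  intro F _ _ ι _ _ e he hE _
  obtain ⟨CF, hCF, hST⟩ := h1 F
  obtain ⟨D0, hD0⟩ := pow_unbounded_of_one_lt (2 * CF ^ (∑ i, e i)) (one_lt_two (α := ℝ))
  have hD1 : 2 * CF ^ (∑ i, e i) < 2 ^ (D0 + 1) := by
    refine hD0.trans_le ?_
    exact pow_le_pow_right₀ one_le_two (Nat.le_succ _)
  obtain ⟨C, hC, hDV⟩ := h2 F (2 * CF ^ (∑ i, e i)) (D0 * (∑ i, e i) + 1)
  refine ⟨C, hC, fun X hX => ?_⟩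
  obtain ⟨a, b, c, d, hd, hm⟩ := exists_mini he hE (X := X) hX
  refine ⟨a, b, c, d, hd, ?_⟩
  have hY : Nd (gX a b c d X) := Nd.gX hX hd
  obtain ⟨Y, hYd⟩ : ∃ Y, Y = gX a b c d X := ⟨_, rfl⟩
  rw [← hYd] at hm hY ⊢
  rw [← nr_cc]
  show nr (MM e Y) ≤ C * nr (cc e Y)
  have hcc := cc_ne he hE hY
  have hMM := MM_ne hE hY
  obtain ⟨n, hn⟩ := exists_ideal (inv_mul_le_one hcc (MM_le e Y))
  have hn2 : MM e Y = (n : FI F) * cc e Y := by
    rw [hn, mul_comm, ← mul_assoc, mul_inv_cancel₀ hcc, one_mul]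
  have hn0 : n ≠ ⊥ := by
    rintro rfl
    apply hMM
    rw [hn2, coeIdeal_bot, zero_mul]
  have hnle : ∀ w : Ideal (𝓞 F), n ≤ w → MM e Y ≤ (w : FI F) * cc e Y := by
    intro w hw
    rw [hn2]
    exact mul_le_mul' ((coeIdeal_le_coeIdeal F).2 hw) le_rfl
  have hkey : ∀ v : Ideal (𝓞 F), v.IsPrime → v ≠ ⊥ → ∀ D : ℕ,
      2 * CF ^ (∑ i, e i) < ((Ideal.absNorm v : ℕ) : ℝ) ^ (D + 1) →
      ¬ n ≤ v ^ (D * (∑ i, e i) + 1) := by
    intro v hv hv0 D hD hle
    exact not_MM_le he hE hY hv hv0 D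
      (fun i₀ => claim he hE hCF (fun v hv hv0 D X i₀ => hST v hv hv0 D ι X i₀) hY hm hv hv0 hD i₀)
      (hnle _ hle)
  have hfin := hDV n hn0 ?_ ?_
  · rw [hn2, nr_mul, nr_coe]
    exact mul_le_mul_of_nonneg_right hfin (nr_pos hcc).le
  · intro v hv hv0 hle
    by_contra hcon
    push Not at hcon
    have := hkey v hv hv0 0 (by rw [zero_add, pow_one]; exact hcon)
    rw [zero_mul, zero_add, pow_one] at this
    exact this hle
  · intro v hv hv0
    apply hkey v hv hv0 D0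
    refine hD1.trans_le ?_
    apply pow_le_pow_left₀ (by norm_num)
    have h3 : Ideal.absNorm v ≠ 0 := by
      intro h
      exact hv0 (Ideal.absNorm_eq_zero_iff.1 h)
    have h4 : Ideal.absNorm v ≠ 1 := by
      intro h
      exact hv.ne_top (Ideal.absNorm_eq_one_iff.1 h)
    have h5 : 2 ≤ Ideal.absNorm v := by omega
    exact_mod_cast h5

end Pool.Agent.Y65.KI
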